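import Pool.Agent.X239.PM.Lat
import Pool.Agent.X239.PM.Grp

/-!
# Poonen's strict inequality for families with modular atoms

Let `A` be a finite union-closed family and let `L` be the lattice of the members (and the empty
set), ordered by reverse inclusion. `LMod L`: every `b ≠ ⊥` of `L` covers an element that is left
modular in the interval `[⊥, b]`. This holds for lower semimodular lattices, for lattices with a
maximal chain of left modular elements (supersolvable lattices) and for comodernistic lattices. We
show that Poonen's strengthening of the union-closed sets conjecture holds for all these families.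

Proof. Let `B` be the member given by a left modular coatom of `L` and `x ∈ B`. Then `Y ↦ Y ∪ B` is
injective on the members avoiding `x`. If no element lies in more than half of the members, the map
is a bijection onto the members containing `x`, and counting the members that contain another
element of `B` shows that `A` is the product of `{∅, B}` and the family of the members avoiding `x`,
which is of the same kind.

For groups: the same argument with a maximal subgroup containing the commutator subgroup.
-/

set_option autoImplicit false

namespace Pool.Agent.Results.MP_75f39d_co.ModularAtoms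

open Finset Pool.Agent.X239.PM

theorem result :
    -- families with modular atoms
    (∀ (α : Type) [DecidableEq α] (A : Finset (Finset α)), A.Nonempty →
      (∀ X ∈ A, ∀ Y ∈ A, X ∪ Y ∈ A) →
      ∀ (L : Type) [Lattice L] [BoundedOrder L], LMod L →
      Nonempty ({X : Finset α // X ∈ insert ∅ A} ≃o Lᵒᵈ) →
      -- Poonen's statement
      ((∀ x ∈ A.sup id, ∀ y ∈ A.sup id, x ≠ y → ∃ S ∈ A, ¬ (x ∈ S ↔ y ∈ S)) →
        A ≠ (A.sup id).powerset →
        ∃ x ∈ A.sup id, A.card < 2 * (A.filter (fun X => x ∈ X)).card) ∧
      -- without the separation hypothesis
      ((∃ x ∈ A.sup id, A.card < 2 * (A.filter (fun X => x ∈ X)).card) ∨ (∅ ∈ A ∧ Blocks A))) ∧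
    -- lower semimodular lattices
    (∀ (L : Type) [Lattice L] [BoundedOrder L] [Finite L] [IsLowerModularLattice L], LMod L) ∧
    -- lattices with a maximal chain of left modular elements
    (∀ (L : Type) [Lattice L] [BoundedOrder L] [Finite L] (s : Set L), IsMaxChain (· ≤ ·) s →
      (∀ m ∈ s, ∀ x y : L, x ≤ y → x ⊔ (m ⊓ y) = (x ⊔ m) ⊓ y) → LMod L) ∧
    -- complements of the subgroups of a finite group different from its commutator subgroup
    (∀ (G : Type) [Group G] [Fintype G] [DecidableEq G], commutator G ≠ ⊤ →
      ∀ A : Finset (Finset G), (∀ X : Finset G, X ∈ A ↔ ∃ H : Subgroup G, ∀ x, x ∈ X ↔ x ∉ H) →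
      3 ≤ A.card →
      (∀ X ∈ A, ∀ Y ∈ A, X ∪ Y ∈ A) ∧
        ∃ x : G, A.card < 2 * (A.filter (fun X => x ∈ X)).card) := by
  refine ⟨?_, ?_, ?_, ?_⟩
  · intro α _ A hne hU L _ _ hL he
    obtain ⟨e⟩ := he
    have h := family hL hne hU e
    refine ⟨fun hsep hpow => ?_, h⟩
    rcases h with h | h
    · exact h
    · exact absurd (powerset_of_blocks h.2 hsep) hpow
  · intro L _ _ _ _
    exact lmod_of_lower
  · intro L _ _ _ s hs hm
    exact lmod_of_chain s hs hm
  · intro G _ _ _ hG A hA h3
    exact group_family G hG A hA h3

end Pool.Agent.Results.MP_75f39d_co.ModularAtoms
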