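import Pool.Agent.X73.UCP.Main

set_option autoImplicit false

/-!
# Poonen's strict inequality for union-closed families with small minimal members

Let `A` be a finite union-closed family which separates the points of its union and is not a power
set. Call a member minimal if it is nonempty and contains no other nonempty member. Some element lies
in strictly more than half of the members of `A` if one of the following holds:

* two elements meet all nonempty members (for instance: at most two minimal members);
* all minimal members have at most two elements;
* there are at most three minimal members, each with at most six elements;
* there are at most four minimal members, each with at most three elements.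

Outline. Assume that no element lies in more than half of the members. A singleton member can be
split off as a direct factor. If `{x, y}` is a member, then removing `{x, y}` from a member gives a
member, and as many members meet `{x, y}` in `x` as in `y`. In the other cases the minimal members
are pairwise disjoint of size at least three (or one of few exceptional configurations occurs), and
the members are weighted by the number of their elements in the minimal members; members containing
few of them pay for the larger ones, and the members which separate the elements of a minimal member
give the surplus needed for the strict inequality.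
-/

namespace Pool.Agent.Results.MP_75f39d_co.SmallMinimalMembersStrict

/-- The set of the minimal nonempty members. -/
def minimalMembers (A : Finset (Finset ℕ)) : Finset (Finset ℕ) :=
  A.filter (fun m => m.Nonempty ∧ ∀ S ∈ A, S.Nonempty → S ⊆ m → S = m)

/-- Poonen's strict inequality for the separating union-closed families, not power sets, such that
two elements meet all nonempty members, or all minimal nonempty members have at most two elements,
or there are at most three of them with at most six elements each, or at most four of them with
at most three elements each. -/
theorem result (A : Finset (Finset ℕ)) (hne : A.Nonempty)
    (hU : ∀ X ∈ A, ∀ Y ∈ A, X ∪ Y ∈ A)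
    (hsep : ∀ x ∈ A.sup id, ∀ y ∈ A.sup id, x ≠ y → ∃ S ∈ A, ¬ (x ∈ S ↔ y ∈ S))
    (hpow : A ≠ (A.sup id).powerset)
    (h : (∃ x y, ∀ S ∈ A, S.Nonempty → x ∈ S ∨ y ∈ S) ∨
      (∀ m ∈ minimalMembers A, m.card ≤ 2) ∨
      ((minimalMembers A).card ≤ 3 ∧ ∀ m ∈ minimalMembers A, m.card ≤ 6) ∨
      ((minimalMembers A).card ≤ 4 ∧ ∀ m ∈ minimalMembers A, m.card ≤ 3)) :
    ∃ x ∈ A.sup id, A.card < 2 * (A.filter (fun S => x ∈ S)).card := by
  refine Pool.Agent.X73.UCP.main hne hU hsep hpow ?_
  rcases h with h | h | h | h
  · exact Or.inl h
  · refine Or.inr (Or.inl ?_)
    intro S hS hSne
    obtain ⟨m, hm, hmS⟩ := Pool.Agent.X73.UCP.exists_minM hS hSne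
    have hm' : m ∈ minimalMembers A := hm
    unfold minimalMembers at hm'
    rw [Finset.mem_filter] at hm'
    exact ⟨m, hm'.1, hm'.2.1, hmS, h m hm⟩
  · exact Or.inr (Or.inr (Or.inl h))
  · exact Or.inr (Or.inr (Or.inr h))

end Pool.Agent.Results.MP_75f39d_co.SmallMinimalMembersStrict
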