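import Pool.Agent.X42.SubGrpFam

set_option autoImplicit false

/-!
# Poonen's strict inequality for the subgroup lattices of finite groups (MP_75f39d_co)

Let `G` be a finite group each of whose nonabelian simple quotients is generated by two elements of
prime power order (`TwoGen G`).  This holds for all solvable groups, for all groups which have no
nonabelian simple quotient, and, by the classification of the finite simple groups, for all finite
groups.

* Some element of prime power order lies in strictly fewer than half of the subgroups of `G`, unless
  `G` is cyclic of squarefree order.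
* If `G` has at least three subgroups, some element lies in strictly fewer than half of them; that
  is, in strictly more than half of the members of the union-closed family of all complements of
  subgroups.
* Poonen's strengthening of the union-closed sets conjecture holds for every separating union-closed
  family `A` such that `A ∪ {∅}`, ordered by inclusion, is dual to the lattice of the subgroups of
  `G`.
* The same for every finite lattice `L` with a left modular element `m`, join-irreducible elements
  `a, b` with `a ∨ b ∨ m = 1` and an element `c`, such that `a, b, c` are not below `m` and `a, b`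
  are not below `c`.

Proof.  Let `M` be a maximal proper normal subgroup.  If `G / M` is not abelian, let `a, b` have
prime power order with `⟨a, b⟩ M = G`.  By Dedekind's law `H ↦ H ∩ M` is injective on the subgroups
containing `a` and `b`, and the images contain neither `a` nor `b`.  There is a further subgroup which
contains neither `a` nor `b`, since otherwise the cyclic subgroup generated by one of `a, b` would
have at most two conjugates, all in the normalizer, and its image in `G / M` would be normal.
If all simple quotients are abelian, one element `x` outside `M` suffices, and the case of equality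
forces `G = M × ⟨x⟩` with coprime orders; the simple quotients of `M` are simple quotients of `G`, and
one concludes by induction.
-/

namespace Pool.Agent.Results.MP_75f39d_co.SubgroupLattices

open Pool.Agent.X42.SubGrp

/-- Poonen's condition on a family: nonempty, union-closed, separating, not a power set. -/
def PoonenFamily {α : Type} [DecidableEq α] (A : Finset (Finset α)) : Prop :=
  A.Nonempty ∧ (∀ X ∈ A, ∀ Y ∈ A, X ∪ Y ∈ A) ∧
    (∀ x ∈ A.sup id, ∀ y ∈ A.sup id, x ≠ y → ∃ S ∈ A, (x ∈ S ∧ y ∉ S) ∨ (y ∈ S ∧ x ∉ S)) ∧
    A ≠ (A.sup id).powerset

theorem result :
    -- elements of prime power order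
    (∀ (G : Type) [Group G] [Finite G], TwoGen G →
      (∃ x : G, PP x ∧ 2 * Nat.card {H : Subgroup G // x ∈ H} < Nat.card (Subgroup G)) ∨
        (IsCyclic G ∧ Squarefree (Nat.card G))) ∧
    -- the family of the complements of the subgroups
    (∀ (G : Type) [Group G] [Finite G], TwoGen G → 3 ≤ Nat.card (Subgroup G) →
      ∃ x : G, 2 * Nat.card {H : Subgroup G // x ∈ H} < Nat.card (Subgroup G)) ∧
    -- all separating families with this lattice
    (∀ (G : Type) [Group G] [Finite G], TwoGen G →
      ∀ (α : Type) [DecidableEq α] (A : Finset (Finset α)), PoonenFamily A →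
        Nonempty ({X : Finset α // X ∈ insert ∅ A} ≃o (Subgroup G)ᵒᵈ) →
        ∃ x ∈ A.sup id, A.card < 2 * (A.filter (fun S => x ∈ S)).card) ∧
    -- solvable groups
    (∀ (G : Type) [Group G], Group.IsSolvable G → TwoGen G) ∧
    -- lattices with a left modular element and two join-irreducible elements
    (∀ (L : Type) [Lattice L] [BoundedOrder L] [Finite L] (m a b c : L), SupIrred a → SupIrred b →
      (∀ x y : L, x ≤ y → (x ⊔ m) ⊓ y = x ⊔ (m ⊓ y)) → a ⊔ b ⊔ m = ⊤ →
      ¬ a ≤ m → ¬ b ≤ m → ¬ c ≤ m → ¬ a ≤ c → ¬ b ≤ c →
      ∀ (α : Type) [DecidableEq α] (A : Finset (Finset α)), PoonenFamily A →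
        Nonempty ({X : Finset α // X ∈ insert ∅ A} ≃o Lᵒᵈ) →
        ∃ x ∈ A.sup id, A.card < 2 * (A.filter (fun S => x ∈ S)).card) := by
  refine ⟨fun G _ _ hT => main _ G rfl hT, fun G _ _ hT h3 => three G hT h3, ?_,
    fun G _ hG => twoGen_of_solvable hG, ?_⟩
  · rintro G _ _ hT α _ A ⟨h1, h2, h3, h4⟩ ⟨e⟩
    exact fam G hT A h1 h2 h3 h4 e
  · rintro L _ _ _ m a b c hai hbi hm htop ha hb hc hac hbc α _ A ⟨h1, h2, h3, h4⟩ ⟨e⟩
    exact fam_two A h1 h2 h3 h4 e m a b c hai hbi hm htop ha hb hc hac hbc

end Pool.Agent.Results.MP_75f39d_co.SubgroupLattices
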