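import Pool.Agent.X239.PM.Fin2

/-!
# Poonen's strict inequality for families generated by connected sets of a graph with at most one cycle

Let `A` be a finite union-closed family and let `G` be a family of nonempty members such that every
member is a union of sets in `G`. `Tip G`: in every nonempty subfamily of `G` there is a set `g` with
two elements `a, b` (possibly `a = b`) such that every set of the subfamily that meets `g` contains
`a` or `b`. We prove Poonen's strengthening of the union-closed sets conjecture for all these
families, also with weights that do not decrease under inclusion. In particular it holds if every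
member is a union of members that are connected sets of vertices of a fixed tree or of a fixed
connected graph with one cycle (subtrees of a tree, intervals, arcs of a circle).

Proof. Suppose that no element has more than half of the weight. Take `g`, `a`, `b` for the whole
family. The members without `a` and `b` are disjoint from `g`, and `Y ↦ Y ∪ g` maps them injectively to
members containing `a` and `b`; as `a` and `b` have at most half of the weight each, this is a
bijection, so `Y \ g` is a member for every member `Y`. Sum the weights over the fibres of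
`Y ↦ Y \ g` and apply induction to the members disjoint from `g`: all fibres have the same weight,
which forces `A` to be the product of the members disjoint from `g` and the members inside `g`. If the
latter form all of `A`, then `∅` and `g` are the only members containing both or none of `a`, `b` and a
count of the members containing a further element finishes the proof.
-/

set_option autoImplicit false

namespace Pool.Agent.Results.MP_75f39d_co.SubtreeGenerated

open Finset Pool.Agent.X239.PM

theorem result :
    -- families generated by connected sets of a tree or of a connected graph with one cycle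
    (∀ (α : Type) [DecidableEq α] (A : Finset (Finset α)), A.Nonempty →
      (∀ X ∈ A, ∀ Y ∈ A, X ∪ Y ∈ A) →
      ∀ H : SimpleGraph α, (H.IsTree ∨ ∃ e ∈ H.edgeSet, (H.deleteEdges {e}).IsTree) →
      (∀ S ∈ A, ∀ i ∈ S, ∃ g ∈ A, i ∈ g ∧ g ⊆ S ∧ (H.induce (g : Set α)).Connected) →
      -- Poonen's statement
      ((∀ x ∈ A.sup id, ∀ y ∈ A.sup id, x ≠ y → ∃ S ∈ A, ¬ (x ∈ S ↔ y ∈ S)) →
        A ≠ (A.sup id).powerset →
        ∃ x ∈ A.sup id, A.card < 2 * (A.filter (fun X => x ∈ X)).card) ∧
      -- without the separation hypothesis
      ((∃ x ∈ A.sup id, A.card < 2 * (A.filter (fun X => x ∈ X)).card) ∨ (∅ ∈ A ∧ Blocks A))) ∧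
    -- the same for families whose generators have tips
    (∀ (α : Type) [DecidableEq α] (A : Finset (Finset α)), A.Nonempty →
      (∀ X ∈ A, ∀ Y ∈ A, X ∪ Y ∈ A) →
      ∀ G ⊆ A, (∀ S ∈ A, ∀ i ∈ S, ∃ g ∈ G, i ∈ g ∧ g ⊆ S) → (∀ g ∈ G, g.Nonempty) → Tip G →
      ((∀ x ∈ A.sup id, ∀ y ∈ A.sup id, x ≠ y → ∃ S ∈ A, ¬ (x ∈ S ↔ y ∈ S)) →
        A ≠ (A.sup id).powerset →
        ∃ x ∈ A.sup id, A.card < 2 * (A.filter (fun X => x ∈ X)).card) ∧
      ((∃ x ∈ A.sup id, A.card < 2 * (A.filter (fun X => x ∈ X)).card) ∨ (∅ ∈ A ∧ Blocks A))) ∧
    -- with weights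
    (∀ (α : Type) [DecidableEq α] (G : Finset (Finset α)), (∀ g ∈ G, g.Nonempty) → Tip G →
      ∀ w : Finset α → ℕ, (∀ Y ∈ gen G, 0 < w Y) →
      (∀ Y ∈ gen G, ∀ Z ∈ gen G, Y ⊆ Z → w Y ≤ w Z) →
      (∃ x, ∑ Y ∈ gen G, w Y < 2 * ∑ Y ∈ (gen G).filter (fun Y => x ∈ Y), w Y) ∨
        (Blocks (gen G) ∧ ∀ Y ∈ gen G, w Y = w ∅)) := by
  refine ⟨?_, ?_, ?_⟩
  · intro α _ A hne hU H hH hgen
    have h := graph_strict hne hU H hH hgen
    refine ⟨fun hsep hpow => ?_, h⟩
    rcases h with h | h
    · exact h
    · exact absurd (powerset_of_blocks h.2 hsep) hpow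
  · intro α _ A hne hU G hGA hgen hGne hT
    have h := strict2 hne hU hGA hgen hGne hT
    refine ⟨fun hsep hpow => ?_, h⟩
    rcases h with h | h
    · exact h
    · exact absurd (powerset_of_blocks h.2 hsep) hpow
  · intro α _ G hGne hT w hpos hmono
    exact weighted hGne hT w hpos hmono

end Pool.Agent.Results.MP_75f39d_co.SubtreeGenerated
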